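import Pool.Agent.P.MP_f45d88_nt.Main

/-!
Q1 of MP_f45d88_nt: for every prime `p ≥ 7` with `p ≡ 3 (mod 4)`, the determinant of the matrix of
order `(p - 5) / 2` with entries `x + ((j - k) / p)` (`0 ≤ j, k ≤ (p - 7) / 2`) is
`⌊(p - 2) / 3⌋ ^ 2 * x` in `ℤ[x]`.
-/

namespace Pool.Agent.Results.MP_f45d88_nt.Full

theorem result (p : ℕ) [Fact p.Prime] (h7 : 7 ≤ p) (h4 : p % 4 = 3) :
    (Matrix.of fun j k : Fin ((p - 5) / 2) =>
      (Polynomial.X + Polynomial.C (legendreSym p (((j : ℕ) : ℤ) - ((k : ℕ) : ℤ))) :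
        Polynomial ℤ)).det =
      Polynomial.C ((((p - 2) / 3 : ℕ) : ℤ) ^ 2) * Polynomial.X :=
  Pool.Agent.P.MP_f45d88_nt.main h7 h4

end Pool.Agent.Results.MP_f45d88_nt.Full
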